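import Pool.Agent.H.MP_8fd344_co.A

namespace Pool.Agent.Results.MP_8fd344_co.No

open Set Function Filter Topology Pool.Agent.H.MP_8fd344_co

/-- A finite bipartite graph with labelled vertex classes `Fin n₁` and `Fin n₂`. -/
structure BG where
  n₁ : ℕ
  n₂ : ℕ
  E : Finset (Fin n₁ × Fin n₂)

/-- Homomorphisms preserving the classes. -/
def IsHom (H G : BG) (φ : (Fin H.n₁ → Fin G.n₁) × (Fin H.n₂ → Fin G.n₂)) : Prop :=
  ∀ e ∈ H.E, (φ.1 e.1, φ.2 e.2) ∈ G.E

/-- The homomorphism density. -/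
noncomputable def t (H G : BG) : ℝ := Nat.card {φ // IsHom H G φ} / ((G.n₁ : ℝ) ^ H.n₁ * (G.n₂ : ℝ) ^ H.n₂)

/-- The single edge. -/
def K₂ : BG := ⟨1, 1, Finset.univ⟩

/-- The normalised logarithmic density. -/
noncomputable def h (H G : BG) : ℝ :=
  if G.E = Finset.univ then H.E.card else Real.log (t H G) / Real.log (t K₂ G)

/-- The minimum over collapses `H'` of `|E(H')| + 2 (|V(H)| - |V(H')|)`. -/
noncomputable def r (H : BG) : ℕ := sInf {k | ∃ (H' : BG) (φ : _), IsHom H H' φ ∧ Surjective φ.1 ∧ Surjective φ.2 ∧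
  (∀ e' ∈ H'.E, ∃ e ∈ H.E, (φ.1 e.1, φ.2 e.2) = e') ∧
    (k : ℤ) = H'.E.card + 2 * ((H.n₁ + H.n₂ : ℤ) - (H'.n₁ + H'.n₂))}

/-- The sequence has the quasirandom log-limit. -/
def QR (G : ℕ → BG) : Prop := ∀ H : BG, H.E.Nonempty → Tendsto (fun n => h H (G n)) atTop (𝓝 (r H))

/-- The adjacency matrix of the underlying simple graph. -/
def adj (G : BG) : Matrix (Fin G.n₁ ⊕ Fin G.n₂) (Fin G.n₁ ⊕ Fin G.n₂) ℝ :=
  Matrix.fromBlocks 0 (.of fun a b => if (a, b) ∈ G.E then 1 else 0) (.of fun b a => if (a, b) ∈ G.E then 1 else 0) 0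

/-- The spectrum: eigenvalues with multiplicity. -/
noncomputable def spec (G : BG) : Multiset ℝ := (adj G).charpoly.roots

abbrev ed (F : BG) : Set (Fin F.n₁ × Fin F.n₂) := ↑F.E

open Classical in
noncomputable def mk {A B : Type} [Fintype A] [Fintype B] (G : A → B → Prop) : BG :=
  ⟨_, _, Finset.univ.filter fun e => G ((Fintype.equivFin A).symm e.1) ((Fintype.equivFin B).symm e.2)⟩

noncomputable def e₁ {A B : Type} [Fintype A] [Fintype B] (G : A → B → Prop) : A ≃ Fin (mk G).n₁ := Fintype.equivFin A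

noncomputable def e₂ {A B : Type} [Fintype A] [Fintype B] (G : A → B → Prop) : B ≃ Fin (mk G).n₂ := Fintype.equivFin B

lemma mem_mk {A B : Type} [Fintype A] [Fintype B] {G : A → B → Prop} {a b} :
    (a, b) ∈ (mk G).E ↔ G ((e₁ G).symm a) ((e₂ G).symm b) := by
  classical
  exact Finset.mem_filter.trans (and_iff_right (Finset.mem_univ _))

lemma t_mk {A B : Type} [Fintype A] [Fintype B] (G : A → B → Prop) (F : BG) : t F (mk G) =
    hm (ed F) G / ((Fintype.card A : ℝ) ^ F.n₁ * (Fintype.card B : ℝ) ^ F.n₂) := by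
  have : Nat.card {φ // IsHom F (mk G) φ} = hm (ed F) G :=
    le_antisymm (hm_le _ (G := fun a b => (a, b) ∈ (mk G).E) (e₁ G).symm.injective (e₂ G).symm.injective
      fun a b => mem_mk.1) (hm_le _ (G' := fun a b => (a, b) ∈ (mk G).E) (e₁ G).injective (e₂ G).injective
        fun a b => by simp [mem_mk])
  rw [t, this]
  rfl

lemma r_le (F : BG) {A B : Type} (f : Fin F.n₁ → A) (g : Fin F.n₂ → B) : ∃ k : ℕ, r F ≤ k ∧
    (∃ (H' : BG) (φ : _), IsHom F H' φ ∧ Surjective φ.1 ∧ Surjective φ.2 ∧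
      (∀ e' ∈ H'.E, ∃ e ∈ F.E, (φ.1 e.1, φ.2 e.2) = e') ∧
        (k : ℤ) = H'.E.card + 2 * ((F.n₁ + F.n₂ : ℤ) - (H'.n₁ + H'.n₂))) ∧
    (k : ℤ) = (Prod.map f g '' ed F).ncard + 2 * ((F.n₁ + F.n₂ : ℤ) - ((range f).ncard + (range g).ncard)) := by
  classical
  obtain ⟨a, ⟨u⟩⟩ := Finite.exists_equiv_fin (range f)
  obtain ⟨b, ⟨v⟩⟩ := Finite.exists_equiv_fin (range g)
  have ha : (range f).ncard = a := by rw [← Nat.card_coe_set_eq, Nat.card_congr u]; simp
  have hb : (range g).ncard = b := by rw [← Nat.card_coe_set_eq, Nat.card_congr v]; simp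
  have s1 : Surjective (u ∘ rangeFactorization f) := u.surjective.comp rangeFactorization_surjective
  have s2 : Surjective (v ∘ rangeFactorization g) := v.surjective.comp rangeFactorization_surjective
  have l1 := Fintype.card_le_of_surjective _ s1
  have l2 := Fintype.card_le_of_surjective _ s2
  simp only [Fintype.card_fin] at l1 l2
  let H' : BG := ⟨a, b, F.E.image (Prod.map (u ∘ rangeFactorization f) (v ∘ rangeFactorization g))⟩
  have hc : (Prod.map f g '' ed F).ncard = H'.E.card := by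
    rw [← ncard_coe_finset, Finset.coe_image, ← ncard_image_of_injective (f := Prod.map (fun x => (u.symm x : A))
      fun y => (v.symm y : B)) _ ((Subtype.val_injective.comp u.symm.injective).prodMap
        (Subtype.val_injective.comp v.symm.injective)), image_image]
    congr 2
    ext e <;> simp
  have : ∃ (H'' : BG) (φ : _), IsHom F H'' φ ∧ Surjective φ.1 ∧ Surjective φ.2 ∧
      (∀ e' ∈ H''.E, ∃ e ∈ F.E, (φ.1 e.1, φ.2 e.2) = e') ∧ ((H'.E.card + 2 * (F.n₁ - a + (F.n₂ - b)) : ℕ) : ℤ) =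
        H''.E.card + 2 * ((F.n₁ + F.n₂ : ℤ) - (H''.n₁ + H''.n₂)) :=
    ⟨H', (_, _), fun e he => Finset.mem_image_of_mem _ he, s1, s2, fun e he => Finset.mem_image.1 he,
      by simp only [H']; omega⟩
  exact ⟨_, Nat.sInf_le this, this, by omega⟩

lemma r_spec (F : BG) : ∃ (H' : BG) (φ : _), IsHom F H' φ ∧ Surjective φ.1 ∧ Surjective φ.2 ∧
    (∀ e' ∈ H'.E, ∃ e ∈ F.E, (φ.1 e.1, φ.2 e.2) = e') ∧
      (r F : ℤ) = H'.E.card + 2 * ((F.n₁ + F.n₂ : ℤ) - (H'.n₁ + H'.n₂)) :=
  by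
  obtain ⟨k, -, hk, -⟩ := r_le F id id
  exact Nat.sInf_mem (s := {k : ℕ | ∃ (H' : BG) (φ : _), IsHom F H' φ ∧ Surjective φ.1 ∧ Surjective φ.2 ∧
    (∀ e' ∈ H'.E, ∃ e ∈ F.E, (φ.1 e.1, φ.2 e.2) = e') ∧
      (k : ℤ) = H'.E.card + 2 * ((F.n₁ + F.n₂ : ℤ) - (H'.n₁ + H'.n₂))}) ⟨k, hk⟩

lemma r_star (k : ℕ) : r ⟨1, k, Finset.univ⟩ = k := by
  refine le_antisymm ?_ ?_
  · obtain ⟨j, h1, -, h2⟩ := r_le ⟨1, k, Finset.univ⟩ id id
    simp [ncard_univ] at h2
    omega
  · obtain ⟨H, φ, h1, h2, h3, -, h4⟩ := r_spec ⟨1, k, Finset.univ⟩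
    have l1 := Fintype.card_le_of_surjective _ h2
    have l2 := Fintype.card_le_of_surjective _ h3
    have l3 : (Finset.univ : Finset (Fin H.n₂)).card ≤ H.E.card := Finset.card_le_card_of_surjOn Prod.snd fun b _ => by
      obtain ⟨x, rfl⟩ := h3 b
      exact ⟨_, h1 ((0 : Fin 1), x) (Finset.mem_univ _), rfl⟩
    simp only [Fintype.card_fin, Finset.card_univ] at l1 l2 l3 h4
    omega

lemma seq : ∃ (q : ℕ → ℕ) (G : ∀ n, Fin (q n ^ 2) → Fin (q n ^ 2) → Prop), (∀ n, n + 2 ≤ q n) ∧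
    (∀ n, ∃ a b, G n a b) ∧ ∀ F : BG, (∀ᶠ n in atTop, 0 < hm (ed F) (G n)) ∧ Tendsto (fun n =>
      Real.log (hm (ed F) (G n) / ((q n : ℝ) ^ 2) ^ (F.n₁ + F.n₂)) / Real.log (q n)) atTop (𝓝 (-r F)) := by
  haveI : Countable BG := Surjective.countable (f := fun p : Σ a b : ℕ, Finset (Fin a × Fin b) =>
    (⟨p.1, p.2.1, p.2.2⟩ : BG)) fun F => ⟨⟨F.1, F.2, F.3⟩, rfl⟩
  obtain ⟨f0, hf0⟩ := @exists_surjective_nat BG ⟨K₂⟩ _
  obtain ⟨f, f1, hf⟩ : ∃ f : ℕ → BG, f 0 = K₂ ∧ Surjective f :=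
    ⟨fun n => n.casesOn K₂ f0, rfl, fun F => (hf0 F).elim fun n hn => ⟨n + 1, hn⟩⟩
  choose K K1 hK using exist (fun i _ G => hm (ed (f i)) G) (fun i => 2 * ((f i).n₁ + (f i).n₂) - r (f i))
    (fun i => ⟨_, _, inferInstance, inferInstance, _, fun _ _ => le_rfl, fun A B u v => by
      obtain ⟨k, h1, -, h2⟩ := r_le (f i) u v
      omega⟩)
    (fun i => by
      obtain ⟨H, φ, h1, h2, h3, -, h4⟩ := r_spec (f i)
      exact ⟨_, _, inferInstance, inferInstance, ed H, fun _ G => hm_surj h2 h3 h1 G, by simp; omega⟩)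
  obtain ⟨q, hq, hq'⟩ : ∃ q : ℕ → ℕ, (∀ n, n + 2 ≤ q n) ∧ ∀ n, K (n + 1) ^ (n + 1) ≤ q n :=
    ⟨fun n => ⌈K (n + 1) ^ (n + 1)⌉₊ + (n + 2), fun n => Nat.le_add_left _ _, fun n => (Nat.le_ceil _).trans (by simp; positivity)⟩
  choose G hG using fun n => hK (n + 1) (q n) (by have := hq n; omega)
  have pos : ∀ n, ∀ i < n + 1, 0 < hm (ed (f i)) (G n) := fun n i hi => Nat.pos_of_ne_zero fun h => by
    have := (hG n i hi).1
    simp only [h, Nat.cast_zero, zero_div] at this
    exact this.not_gt (inv_pos.2 (one_pos.trans_le (K1 _)))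
  refine ⟨q, G, hq, fun n => ?_, fun F => ?_⟩
  · have := pos n 0 (by omega)
    rw [f1] at this
    obtain ⟨φ⟩ := (Nat.card_pos_iff.1 this).1
    exact ⟨_, _, φ.2 ((0 : Fin 1), (0 : Fin 1)) (Finset.mem_coe.2 (Finset.mem_univ _))⟩
  obtain ⟨i, rfl⟩ := hf F
  refine ⟨(eventually_ge_atTop i).mono fun n hn => pos n i (by omega), ?_⟩
  rw [← tendsto_sub_nhds_zero_iff]
  refine squeeze_zero_norm' ((eventually_ge_atTop i).mono fun n hn => ?_) tendsto_one_div_add_atTop_nhds_zero_nat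
  have q1 : (1 : ℝ) < q n := by exact_mod_cast (by have := hq n; omega : 1 < q n)
  have L0 := Real.log_pos q1
  obtain ⟨h1, h2⟩ := hG n i (by omega)
  have p0 : (0 : ℝ) < hm (ed (f i)) (G n) := Nat.cast_pos.2 (pos n i (by omega))
  have k0 := one_pos.trans_le (K1 (n + 1))
  have h3 := Real.log_le_log (by positivity) h1
  have h4 := Real.log_le_log (by positivity) h2
  have h5 := Real.log_le_log (by positivity) (hq' n)
  rw [Real.log_div p0.ne' (by positivity), Real.log_zpow] at h3 h4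
  rw [Real.log_inv] at h3
  rw [Real.log_pow] at h5
  rw [Real.log_div p0.ne' (by positivity), Real.log_pow, Real.log_pow, sub_neg_eq_add, div_add' _ _ _ L0.ne',
    Real.norm_eq_abs, abs_div, abs_of_pos L0, div_le_div_iff₀ L0 (by positivity)]
  push_cast at *
  have : |Real.log (hm (ed (f i)) (G n)) - ((f i).n₁ + (f i).n₂) * (2 * Real.log (q n)) +
    r (f i) * Real.log (q n)| ≤ Real.log (K (n + 1)) := abs_le.2 ⟨by linarith, by linarith⟩
  nlinarith

abbrev V (N : ℕ) := Fin N × Fin N × Bool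

variable {N : ℕ}

def gr (G : Fin N → Fin N → Prop) (P Q : V N → Prop) (x y : V N) : Prop :=
  (x.2.2 = false ∧ y.2.2 = false ∧ G x.1 y.1) ∨ (P x ∧ Q y)

lemma rank {n m : Type} [Fintype n] [Fintype m] [DecidableEq n] [DecidableEq m] (A : Matrix n n ℝ)
    (U : Matrix n m ℝ) (W : Matrix m n ℝ) (h : A * U = 0) : Polynomial.X ^ Fintype.card (n ⊕ m) *
      (A + U * W).charpoly = Polynomial.X ^ Fintype.card n * (A.charpoly * (W * U).charpoly) := by
  have := Matrix.charpoly_mul_comm' (Matrix.fromCols 1 U) (Matrix.fromRows A W)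
  rwa [Matrix.fromCols_mul_fromRows, Matrix.fromRows_mul_fromCols, Matrix.one_mul, h, Matrix.mul_one,
    Matrix.charpoly_fromBlocks_zero₁₂] at this

open Classical in
lemma cosp (G : Fin N → Fin N → Prop) (P Q : V N → Prop) (c : ℝ) (hc : c ≠ 0) (hP : ∀ x, P x → x.2.2 = true)
    (hQ : ∀ x, Q x → x.2.2 = true) (h1 : c * Nat.card {x // P x} = N) (h2 : c⁻¹ * Nat.card {x // Q x} = N) :
    Polynomial.X ^ Fintype.card ((V N ⊕ V N) ⊕ (Unit ⊕ Unit)) * (adj (mk (gr G P Q))).charpoly =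
      Polynomial.X ^ Fintype.card (V N ⊕ V N) * ((Matrix.fromBlocks 0
        (.of fun x y : V N => if x.2.2 = false ∧ y.2.2 = false ∧ G x.1 y.1 then (1 : ℝ) else 0)
        (.of fun y x : V N => if x.2.2 = false ∧ y.2.2 = false ∧ G x.1 y.1 then (1 : ℝ) else 0) 0).charpoly *
        (Matrix.fromBlocks 0 (.of fun _ _ : Unit => (N : ℝ)) (.of fun _ _ : Unit => (N : ℝ)) 0).charpoly) := by
  have hP' : ∀ x, x.2.2 = false → ¬ P x := fun x h h' => by simp [hP x h'] at h
  have hQ' : ∀ x, x.2.2 = false → ¬ Q x := fun x h h' => by simp [hQ x h'] at h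
  have := rank (Matrix.fromBlocks 0
    (.of fun x y : V N => if x.2.2 = false ∧ y.2.2 = false ∧ G x.1 y.1 then (1 : ℝ) else 0)
    (.of fun y x : V N => if x.2.2 = false ∧ y.2.2 = false ∧ G x.1 y.1 then (1 : ℝ) else 0) 0)
    (Matrix.fromBlocks (.of fun a (_ : Unit) => if P a then c else 0) 0 0 (.of fun b (_ : Unit) => if Q b then 1 else 0))
    (Matrix.fromBlocks 0 (.of fun _ b => if Q b then c⁻¹ else 0) (.of fun _ a => if P a then 1 else 0) 0) (by
      rw [Matrix.fromBlocks_multiply]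
      ext (a | a) (b | b) <;> simp [Matrix.mul_apply]
      · exact Finset.sum_eq_zero fun x _ => by by_cases h : x.2.2 = false <;> simp [h, hQ' x]
      · exact Finset.sum_eq_zero fun x _ => by by_cases h : x.2.2 = false <;> simp [h, hP' x])
  rw [Matrix.fromBlocks_multiply, Matrix.fromBlocks_multiply] at this
  convert this using 2
  · refine Eq.trans (congrArg Matrix.charpoly ?_) (Matrix.charpoly_reindex
      ((e₁ (gr G P Q)).sumCongr (e₂ (gr G P Q))) _)
    ext (a | a) (b | b) <;> simp [adj, mem_mk, Matrix.mul_apply]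
    · generalize (e₁ (gr G P Q)).symm a = x, (e₂ (gr G P Q)).symm b = y
      by_cases h : P x <;> by_cases h' : Q y <;> simp [gr, h, h', hc, hP x]
    · generalize (e₂ (gr G P Q)).symm a = y, (e₁ (gr G P Q)).symm b = x
      by_cases h : P x <;> by_cases h' : Q y <;> simp [gr, h, h', hP x]
  · rw [Nat.card_eq_fintype_card, Fintype.card_subtype] at h1 h2
    congr 2
    ext (a | a) (b | b) <;> simp [Matrix.mul_apply, ← ite_and, Finset.sum_ite, mul_comm, h1, h2]

lemma cosp' (G : Fin N → Fin N → Prop) (a b : Fin N) :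
    spec (mk (gr G (fun x => x.1 = a ∧ x.2.2 = true) fun y => y.1 = b ∧ y.2.2 = true)) =
      spec (mk (gr G (fun x => x = (a, a, true)) fun y => y.2.2 = true)) := by
  have c1 : ∀ a : Fin N, Nat.card {x : V N // x.1 = a ∧ x.2.2 = true} = N := fun a =>
    (Nat.card_congr ⟨fun x => x.1.2.1, fun i => ⟨(a, i, true), rfl, rfl⟩, fun x => Subtype.ext (Prod.ext x.2.1.symm (Prod.ext rfl x.2.2.symm)),
      fun _ => rfl⟩).trans (Nat.card_fin N)
  have c2 : Nat.card {x : V N // x.2.2 = true} = N * N :=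
    (Nat.card_congr (β := Fin N × Fin N) ⟨fun x => (x.1.1, x.1.2.1), fun i => ⟨(i.1, i.2, true), rfl⟩,
      fun x => Subtype.ext (Prod.ext rfl (Prod.ext rfl x.2.symm)), fun _ => rfl⟩).trans (by simp)
  have := Nat.cast_ne_zero (R := ℝ).2 a.pos.ne'
  exact congrArg Polynomial.roots ((Polynomial.isRegular_X_pow _).left ((cosp G _ _ 1 one_ne_zero
    (fun _ h => h.2) (fun _ h => h.2) (by simp only [c1, one_mul]) (by simp only [c1, inv_one, one_mul])).trans
    (cosp G _ _ N this (by rintro _ rfl; rfl) (fun _ h => h) (by simp) (by rw [c2]; simp [this])).symm))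

lemma star (G : Fin N → Fin N → Prop) (a : Fin N) : (N * N) ^ 5 ≤ hm (ed ⟨1, 5, Finset.univ⟩)
    (gr G (fun x => x = (a, a, true)) fun y => y.2.2 = true) := by
  have := hm_le (ed ⟨1, 5, Finset.univ⟩) (G := fun (_ : Unit) (_ : Fin N × Fin N) => True)
    (G' := gr G (fun x => x = (a, a, true)) fun y => y.2.2 = true) (f := fun _ => (a, a, true))
    (g := fun x => (x.1, x.2, true)) (fun _ _ _ => rfl) (fun _ _ h => by simpa [Prod.ext_iff] using h)
    fun _ _ _ => .inr ⟨rfl, rfl⟩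
  simpa [hm] using this

lemma edges (G : Fin N → Fin N → Prop) {a b : Fin N} (h : G a b) :
    hm (ed K₂) (gr G (fun x => x = (a, a, true)) fun y => y.2.2 = true) ≤ hm (ed K₂) G * (N * 2) ^ 2 := by
  classical
  have h2 := hm_blow (ed K₂) G (Fin N × Bool)
  simp only [Nat.card_eq_fintype_card, Fintype.card_prod, Fintype.card_fin, Fintype.card_bool] at h2
  have e : ∀ {A B : Type} (G : A → B → Prop), hm (ed K₂) G = Nat.card {p : A × B // G p.1 p.2} := fun G =>
    Nat.card_congr ⟨fun φ => ⟨(φ.1.1 (0 : Fin 1), φ.1.2 (0 : Fin 1)), φ.2 ((0 : Fin 1), (0 : Fin 1))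
      (Finset.mem_coe.2 (Finset.mem_univ _))⟩, fun p => ⟨(fun _ => p.1.1, fun _ => p.1.2), fun _ _ => p.2⟩,
      fun φ => Subtype.ext (Prod.ext (funext fun i => congrArg φ.1.1 (Subsingleton.elim (α := Fin 1) _ _))
        (funext fun i => congrArg φ.1.2 (Subsingleton.elim (α := Fin 1) _ _))), fun _ => rfl⟩
  refine le_of_le_of_eq ?_ h2
  rw [e, e]
  refine Nat.card_le_card_of_injective (fun p => if p.1.2.2.2 = true then ⟨((a, p.1.2.1, true), (b, p.1.2.2)), h⟩
    else ⟨if p.1.2.2.2 = true then ((a, a, true), (b, a, true)) else p.1, by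
      split_ifs with h'
      exacts [h, p.2.elim (·.2.2) fun h'' => (h' h''.2).elim]⟩) ?_
  rintro ⟨⟨x, y⟩, hx⟩ ⟨⟨x', y'⟩, hx'⟩
  by_cases h1 : y.2.2 = true <;> by_cases h2 : y'.2.2 = true <;> simp_all [Prod.ext_iff]
  obtain rfl : x = (a, a, true) := by simpa [gr, h1] using hx
  obtain rfl : x' = (a, a, true) := by simpa [gr, h2] using hx'
  simp

lemma lim {q : ℕ → ℕ} (hq : ∀ n, n + 2 ≤ q n) (c : ℝ) : Tendsto (fun n => c / Real.log (q n)) atTop (𝓝 0) :=
  tendsto_const_nhds.div_atTop (Real.tendsto_log_atTop.comp (tendsto_natCast_atTop_atTop.comp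
    (tendsto_atTop_mono (fun n => (Nat.le_add_right n 2).trans (hq n)) tendsto_id)))

lemma low (G : Fin N → Fin N → Prop) (P Q : V N → Prop) (F : BG) :
    hm (ed F) G * N ^ (F.n₁ + F.n₂) ≤ hm (ed F) (gr G P Q) := by
  have := hm_blow (ed F) G (Fin N)
  simp only [Nat.card_eq_fintype_card, Fintype.card_fin] at this
  exact this ▸ hm_le _ (f := fun x => (x.1, x.2, false)) (g := fun x => (x.1, x.2, false))
    (fun _ _ h => by simpa [Prod.ext_iff] using h) (fun _ _ h => by simpa [Prod.ext_iff] using h)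
    fun a b h => .inl ⟨rfl, rfl, h⟩

lemma ne (G : Fin N → Fin N → Prop) (P Q : V N → Prop) (hP : ∀ x, P x → x.2.2 = true) (a : Fin N) :
    (mk (gr G P Q)).E ≠ Finset.univ := fun h => by
  have := h ▸ Finset.mem_univ (e₁ (gr G P Q) (a, a, false), e₂ (gr G P Q) (a, a, true))
  simpa using hP (a, a, false) (And.left (by simpa [mem_mk, gr] using this))

theorem result : ∃ H H' : ℕ → BG, (∀ n, (H n).E.Nonempty ∧ (H' n).E.Nonempty ∧ (H n).n₁ = (H' n).n₁ ∧
    (H n).n₂ = (H' n).n₂ ∧ spec (H n) = spec (H' n)) ∧ QR H ∧ ¬ QR H' := by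
  classical
  obtain ⟨q, G, hq, hab, hG⟩ := seq
  choose a b hab using hab
  have q1 : ∀ n, (1 : ℝ) < q n := fun n => by exact_mod_cast (by have := hq n; omega : 1 < q n)
  have L0 := fun n => Real.log_pos (q1 n)
  have cV : ∀ N : ℕ, (Fintype.card (V N) : ℝ) = N * (N * 2) := fun N => by simp
  have main : ∀ F, Tendsto (fun n => Real.log (t F (mk (gr (G n) (fun x => x.1 = a n ∧ x.2.2 = true)
      fun y => y.1 = b n ∧ y.2.2 = true))) / Real.log (q n)) atTop (𝓝 (-r F)) := fun F => by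
    have h1 := (hG F).2.add (lim hq (-((F.n₁ + F.n₂ : ℕ) * Real.log 2)))
    rw [add_zero] at h1
    refine tendsto_of_tendsto_of_tendsto_of_le_of_le' h1 (hG F).2 ((hG F).1.mono fun n hn => ?_)
      ((hG F).1.mono fun n hn => ?_)
    · have : (0 : ℝ) < q n := one_pos.trans (q1 n)
      have p0 : (0 : ℝ) < hm (ed F) (G n) := Nat.cast_pos.2 hn
      rw [← add_div, ← Real.log_pow, ← Real.log_inv, ← Real.log_mul (by positivity) (by positivity)]
      refine div_le_div_of_nonneg_right (Real.log_le_log (by positivity) ?_) (L0 n).le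
      rw [t_mk, cV, ← pow_add, le_div_iff₀ (by push_cast; positivity)]
      refine le_trans (le_of_eq ?_) (Nat.cast_le.2 (low (G n) _ _ F))
      push_cast
      simp only [mul_pow]
      field_simp
    · have : (0 : ℝ) < q n := one_pos.trans (q1 n)
      have p0 : (0 : ℝ) < hm (ed F) (G n) := Nat.cast_pos.2 hn
      have h2 := hm_blow (ed F) (G n) (Fin (q n ^ 2) × Bool)
      have h3 := (Nat.cast_le (α := ℝ)).2 (h2 ▸ hm_le (ed F) (G := gr (G n) (fun x => x.1 = a n ∧ x.2.2 = true)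
        fun y => y.1 = b n ∧ y.2.2 = true) injective_id injective_id fun x y h =>
          h.elim (·.2.2) fun h => show G n x.1 y.1 from h.1.1 ▸ h.2.1 ▸ hab n)
      have h4 := (Nat.cast_le (α := ℝ)).2 (low (G n) (fun x => x.1 = a n ∧ x.2.2 = true)
        (fun y => y.1 = b n ∧ y.2.2 = true) F)
      rw [t_mk, cV, ← pow_add]
      refine div_le_div_of_nonneg_right (Real.log_le_log (div_pos (lt_of_lt_of_le (by push_cast; positivity) h4)
        (by push_cast; positivity)) ?_) (L0 n).le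
      rw [div_le_iff₀ (by push_cast; positivity)]
      refine h3.trans (le_of_eq ?_)
      simp only [Nat.card_eq_fintype_card, Fintype.card_prod, Fintype.card_fin, Fintype.card_bool]
      push_cast
      simp only [mul_pow]
      field_simp
  have r2 : r K₂ = 1 := r_star 1
  refine ⟨fun n => mk (gr (G n) (fun x => x.1 = a n ∧ x.2.2 = true) fun y => y.1 = b n ∧ y.2.2 = true),
    fun n => mk (gr (G n) (fun x => x = (a n, a n, true)) fun y => y.2.2 = true), fun n => ⟨?_, ?_, rfl, rfl, cosp' _ _ _⟩,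
    fun F _ => ?_, fun hQ => ?_⟩
  · exact ⟨(e₁ _ (a n, a n, true), e₂ _ (b n, a n, true)), mem_mk.2 (by simp [gr])⟩
  · exact ⟨(e₁ _ (a n, a n, true), e₂ _ (b n, a n, true)), mem_mk.2 (by simp [gr])⟩
  · have := (main F).div (main K₂) (by simp [r2])
    rw [r2, Nat.cast_one, neg_div_neg_eq, div_one] at this
    refine this.congr fun n => ?_
    rw [h, if_neg (ne _ _ _ (fun _ h => h.2) (a n)), Pi.div_apply, div_div_div_cancel_right₀ (L0 n).ne']
  · have h1 := hQ ⟨1, 5, Finset.univ⟩ Finset.univ_nonempty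
    have h2 := (hG K₂).2.neg
    rw [r2, Nat.cast_one, neg_neg] at h2
    have h3 := le_of_tendsto_of_tendsto h1 (((lim hq (Real.log 64)).add_const 4).div h2 one_ne_zero) ?_
    · rw [r_star] at h3
      norm_num at h3
    filter_upwards [h2.eventually (lt_mem_nhds one_pos), (hG K₂).1] with n h4 h5
    have : (0 : ℝ) < q n := one_pos.trans (q1 n)
    have L := L0 n
    have p0 : (0 : ℝ) < hm (ed K₂) (G n) := Nat.cast_pos.2 h5
    rw [h, if_neg (ne _ _ _ (by rintro _ rfl; rfl) (a n)), Pi.div_apply, ← neg_div_neg_eq,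
      ← div_div_div_cancel_right₀ L.ne', neg_div (Real.log (q n)), neg_div (Real.log (q n))]
    refine div_le_div₀ (by positivity) ?_ h4 (neg_le_neg (div_le_div_of_nonneg_right (Real.log_le_log ?_ ?_) L.le))
    · rw [div_add' _ _ _ L.ne', ← neg_div, show (4 : ℝ) = (4 : ℕ) by simp, ← Real.log_pow,
        ← Real.log_mul (by positivity) (by positivity)]
      refine div_le_div_of_nonneg_right (neg_le.2 ?_) L.le
      rw [← Real.log_inv, t_mk, cV]
      refine Real.log_le_log (by positivity) ?_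
      rw [le_div_iff₀ (by push_cast; positivity)]
      refine le_trans (le_of_eq ?_) (Nat.cast_le.2 (star (G n) (a n)))
      push_cast
      field_simp
      norm_num
    · rw [t_mk, cV]
      exact div_pos (lt_of_lt_of_le (by push_cast; positivity) (Nat.cast_le.2 (low (G n) _ _ K₂)))
        (by push_cast; positivity)
    · rw [t_mk, cV, div_le_iff₀ (by push_cast; positivity)]
      refine (Nat.cast_le.2 (edges (G n) (hab n))).trans (le_of_eq ?_)
      simp only [K₂]
      push_cast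
      field_simp

end Pool.Agent.Results.MP_8fd344_co.No
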